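import Pool.Agent.helper59.BR.SpecH

set_option autoImplicit false

namespace Pool.Agent.BR

open Pool.Agent.helper58.DC Pool.Agent.DI Pool.Agent.GR Pool.Agent.OB Pool.Agent.DR Pool.Agent.FI Pool.Agent.FI3 Pool.Agent.FI4 Pool.Agent.LE

/-- The sum as a value of the central character at the idempotent. -/
theorem HSM_sum {G : Type} [Group G] [Finite G] (C : Subgroup G) (S : Set (G → ℂ)) (hS : S.Finite) (θ₁ : G → ℂ)
    (h0 : ∀ x, x ∉ C → θ₁ x = 0) (h1 : θ₁ 1 ≠ 0) (d : ℂ) :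
    ∑ᶠ ψ ∈ S, mt C ψ θ₁ * (d * ψ 1 / Nat.card G) =
      d * θ₁ 1 / Nat.card C * cc θ₁ (eS (⊤ : Subgroup G) S) := by
  classical
  have := Fintype.ofFinite G
  have hmt : ∀ ψ : G → ℂ, mt C ψ θ₁ = (∑ x : G, ψ x⁻¹ * θ₁ x) / Nat.card C := by
    intro ψ
    unfold FI.mt
    congr 1
    have e1 : ∑ᶠ x ∈ (C : Set G), ψ x * θ₁ x⁻¹ = ∑ᶠ x : G, ψ x * θ₁ x⁻¹ := by
      rw [finsum_mem_def]
      refine finsum_congr fun x => ?_
      by_cases hx : x ∈ (C : Set G)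
      · rw [Set.indicator_of_mem hx]
      · rw [Set.indicator_of_notMem hx, h0 x⁻¹ (fun h => hx (by simpa using C.inv_mem h)), mul_zero]
    rw [e1, finsum_eq_sum_of_fintype, ← Equiv.sum_comp (Equiv.inv G)]
    refine Finset.sum_congr rfl fun x _ => ?_
    simp only [Equiv.inv_apply, inv_inv]
  have hcc : cc θ₁ (eS (⊤ : Subgroup G) S) =
      (∑ x : G, (∑ ψ ∈ hS.toFinset, ψ 1 * ψ x⁻¹) / Nat.card G * θ₁ x) / θ₁ 1 := by
    unfold cc eS
    rw [finsum_eq_sum_of_fintype]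
    congr 1
    refine Finset.sum_congr rfl fun x _ => ?_
    rw [finsum_mem_eq_finite_toFinset_sum _ hS, Subgroup.card_top]
  rw [finsum_mem_eq_finite_toFinset_sum _ hS, hcc]
  have e2 : ∀ ψ ∈ hS.toFinset, mt C ψ θ₁ * (d * ψ 1 / Nat.card G) =
      ∑ x : G, d / Nat.card C * (ψ 1 * ψ x⁻¹ / Nat.card G * θ₁ x) := by
    intro ψ _
    rw [hmt ψ, ← Finset.mul_sum]
    have e3 : ∑ x : G, ψ 1 * ψ x⁻¹ / Nat.card G * θ₁ x = ψ 1 / Nat.card G * ∑ x : G, ψ x⁻¹ * θ₁ x := by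
      rw [Finset.mul_sum]
      refine Finset.sum_congr rfl fun x _ => ?_
      ring
    rw [e3]
    ring
  rw [Finset.sum_congr rfl e2, Finset.sum_comm]
  have e4 : ∀ x : G, ∑ ψ ∈ hS.toFinset, d / Nat.card C * (ψ 1 * ψ x⁻¹ / Nat.card G * θ₁ x) =
      d / Nat.card C * ((∑ ψ ∈ hS.toFinset, ψ 1 * ψ x⁻¹) / Nat.card G * θ₁ x) := by
    intro x
    rw [← Finset.mul_sum, Finset.sum_div, Finset.sum_mul]
  rw [Finset.sum_congr rfl fun x _ => e4 x, ← Finset.mul_sum]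
  field_simp

/-- The number is a unit. -/
theorem HSM_unit {p : ℕ} {M : Ideal (integralClosure ℤ ℂ)} (hS : Setup p M) {a n c : ℕ} (hn : n ≠ 0) (hc : c ≠ 0)
    (h : a + padicValNat p n = padicValNat p c) :
    IntAt M (((p ^ a : ℕ) : ℂ) * n / c) ∧ ¬ InM M (((p ^ a : ℕ) : ℂ) * n / c) := by
  have hp := hS.pr
  have := Fact.mk hp
  have key : ∀ m : ℕ, m ≠ 0 → ∃ m' : ℕ, m = p ^ padicValNat p m * m' ∧ ¬ p ∣ m' := by
    intro m hm
    obtain ⟨m', hm'⟩ : p ^ padicValNat p m ∣ m := pow_padicValNat_dvd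
    refine ⟨m', hm', ?_⟩
    rintro ⟨k, hk⟩
    have hk0 : k ≠ 0 := by
      rintro rfl
      rw [hk, mul_zero, mul_zero] at hm'
      exact hm hm'
    have h1 : p ^ (padicValNat p m + 1) ∣ m := by
      refine ⟨k, ?_⟩
      calc m = p ^ padicValNat p m * m' := hm'
        _ = p ^ (padicValNat p m + 1) * k := by rw [hk, pow_succ]; ring
    exact pow_succ_padicValNat_not_dvd hm h1
  obtain ⟨n', hn', hpn⟩ := key n hn
  obtain ⟨c', hc', hpc⟩ := key c hc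
  have hpC : (p : ℂ) ≠ 0 := hS.p_ne
  have hc0 : (c' : ℂ) ≠ 0 := by
    have : c' ≠ 0 := by
      rintro rfl
      exact hpc (dvd_zero p)
    exact_mod_cast this
  have e : ((p ^ a : ℕ) : ℂ) * n / c = (n' : ℂ) * (c' : ℂ)⁻¹ := by
    have e1 : (n : ℂ) = (p : ℂ) ^ padicValNat p n * n' := by exact_mod_cast hn'
    have e2 : (c : ℂ) = (p : ℂ) ^ padicValNat p c * c' := by exact_mod_cast hc'
    rw [e1, e2, ← h, pow_add]
    push_cast
    field_simp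
  have hic : IntAt M ((c' : ℂ)⁻¹) := IntAt.inv hS (IntAt.natCast hS c') fun h' => hpc ((InM.natCast hS c').1 h')
  have hI : IntAt M ((n' : ℂ) * (c' : ℂ)⁻¹) := (IntAt.natCast hS n').mul hS hic
  rw [e]
  refine ⟨hI, fun h' => hpn ((InM.natCast hS n').1 ?_)⟩
  have h2 := InM.mul_right hS h' (IntAt.natCast hS c')
  rwa [mul_assoc, inv_mul_cancel₀ hc0, mul_one] at h2

theorem HSM (hBLE : BLE_stmt) (hSBI : SBI_stmt) (hTPR : FI.TPR_stmt) (hHTZ4 : HTZ4_stmt) (hGOA : GOA_stmt) (hB2 : B2_stmt) : HSM_stmt := by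
  classical
  intro p M hS hp2 G _ _ D x θ χ lo θ₁ hθ₁ hin
  obtain ⟨hT1, hT2, hT3, -, -⟩ := hTPR p M hS G
  have hdl := hT3 χ D x lo.rt.dfa
  have hcardD := hdl.card
  unfold pp at hcardD
  set a : ℕ := padicValNat p (Nat.card (Cz (⊤ : Subgroup G) x)) with ha
  -- the first factor
  have hgood : Good p M D (cz D) θ := hGOA p M hS hp2 G D x θ χ lo D le_rfl fun _ _ h => h
  obtain ⟨n, hn1, hn2⟩ := hHTZ4 p M hS G D x θ χ lo D le_rfl hgood θ₁ hθ₁ a hcardD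
  have hB := hB2 G (cz D)
  obtain ⟨⟨n₀, hn0, hn0', -⟩, -, hint, hz, -⟩ := hB.2 θ₁ hθ₁.1
  have hnn : n₀ = n := by
    have : (n₀ : ℂ) = n := by rw [← hn0', hn1]
    exact_mod_cast this
  subst hnn
  have hc0 : Nat.card (cz D) ≠ 0 := Nat.card_pos.ne'
  have hU := HSM_unit hS (a := a) hn0.ne' hc0 (by omega)
  -- the second factor
  have hχT : χ ∈ Bl M (⊤ : Subgroup G) θ := by
    refine ⟨?_, ((hT2 θ χ).1 lo.rt.ind).symm⟩
    rw [hT1]
    exact lo.rt.chi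
  obtain ⟨-, hCF, hIA, -, hone, -, -, hBq⟩ := hBLE p M hS G (⊤ : Subgroup G) ⊤ le_rfl θ
  rw [hBq] at hCF hIA hone
  have hθ0 : ∀ x, x ∉ cz D → θ x = 0 := ((hB.2 θ lo.rt.th).2.2.2.1)
  have hsb : SB M (⊤ : Subgroup G) θ₁ χ :=
    (TRNb le_top hz hθ0 hθ₁.2).trans ((hT2 θ χ).1 lo.rt.ind)
  have hd := ((hSBI p M hS G (⊤ : Subgroup G) θ₁ χ hsb).1 _ hCF hIA)
  rw [hone χ hχT] at hd
  set e : ℂ := cc θ₁ (eS (⊤ : Subgroup G) (Bl M (⊤ : Subgroup G) θ)) with he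
  have hIe : IntAt M e := by
    have h1 := (hd.intAt).add hS (IntAt.one hS)
    rwa [sub_add_cancel] at h1
  have hne : ¬ InM M e := by
    intro h1
    have h2 := h1.sub hS hd
    rw [sub_sub_cancel] at h2
    exact InM.not_one hS h2
  have hfin : (Bl M (⊤ : Subgroup G) θ).Finite := (hB2 G (⊤ : Subgroup G)).1.subset fun ψ h => h.1
  have hn1' : θ₁ 1 ≠ 0 := by
    rw [hn0']
    exact_mod_cast hn0.ne'
  rw [HSM_sum (cz D) _ hfin θ₁ hz hn1', ← he, hn0', hcardD] at hin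
  rcases InM.or hS hU.1 hIe hin with h1 | h1
  · exact hU.2 h1
  · exact hne h1

end Pool.Agent.BR
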